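import Mathlib
import Pool.Agent.H759R2.Kad.Props3
import Pool.Agent.H71R2.Kad.Block

/-!
The block bound for the amplifications of a homomorphism, with a general constant (task 15).
-/

open scoped ComplexOrder InnerProductSpace ComplexConjugate
open Finset

noncomputable section

namespace H759R2.Kad

open Block

universe u v

theorem prove3_block (h1 : St_gt.{u, v}) (h2 : T2_col.{u, v}) (h3 : T2_dix.{u, v}) :
    K_block.{u, v} := by
  intro A _ _ _ H _ _ _ w τ hw hτ hdix c hc0 hwc α β _ _ _ _ _ _ γ hγ hamp X ξ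
  obtain ⟨hwb, hτb, hdb⟩ := h3 A H w τ hw hτ hdix c hc0 hwc β
  obtain ⟨a0⟩ := ‹Nonempty α›
  set Mc : ℝ := √6 * c * γ * ‖ξ‖ with hMc
  have hM0 : 0 ≤ Mc := by positivity
  have hM2 : Mc ^ 2 = 6 * c ^ 2 * γ ^ 2 * ‖ξ‖ ^ 2 := by
    rw [hMc, mul_pow, mul_pow, mul_pow, Real.sq_sqrt (by norm_num)]
  -- the row bound
  have hrow : ∀ Z : CStarMatrix (α × β) (α × β) A, ‖rowMap w ξ a0 Z‖ ≤ Mc * ‖Z‖ := by
    intro Z
    have h := (h2 (CStarMatrix β β A) (HH β H) (amp w β) (ntr τ β) hwb hτb c γ hc0 hγ hdb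
      hamp α (fun j => blk Z a0 j)).2 (fun j => sec j ξ)
    rw [sum_sec] at h
    have h5 : ‖rowMap w ξ a0 Z‖ ^ 2 ≤ (Mc * ‖Z‖) ^ 2 := by
      rw [rowMap_apply, mul_pow, hM2]
      refine h.trans ?_
      have h6 := row_norm Z a0
      have h7 : 0 ≤ 6 * c ^ 2 * γ ^ 2 := by positivity
      have h8 : 6 * c ^ 2 * γ ^ 2 * ‖∑ j, blk Z a0 j * star (blk Z a0 j)‖ ≤
          6 * c ^ 2 * γ ^ 2 * ‖Z‖ ^ 2 := mul_le_mul_of_nonneg_left h6 h7
      calc 6 * c ^ 2 * γ ^ 2 * ‖∑ j, blk Z a0 j * star (blk Z a0 j)‖ * ‖ξ‖ ^ 2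
          ≤ 6 * c ^ 2 * γ ^ 2 * ‖Z‖ ^ 2 * ‖ξ‖ ^ 2 := mul_le_mul_of_nonneg_right h8 (by positivity)
        _ = _ := by ring
    exact (pow_le_pow_iff_left₀ (norm_nonneg _) (by positivity) two_ne_zero).mp h5
  -- the averaged block
  set p : CStarMatrix β β A := ∑ i, blk (X * star X) i i with hp
  have hpsa : IsSelfAdjoint p := by
    rw [isSelfAdjoint_iff, hp, star_sum]
    refine Finset.sum_congr rfl fun i _ => ?_
    rw [← blk_star, star_mul, star_star]
  set trX : ℝ := (tr τ (α × β) (star X * X)).re with htr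
  set l : ℝ := (Fintype.card β : ℝ) with hl
  have hl0 : 0 < l := by
    rw [hl]
    exact_mod_cast Fintype.card_pos
  have htrX : tr τ (α × β) (star X * X) = ∑ q : α × β, ∑ r : α × β,
      τ (star (X r q) * X r q) := by
    rw [tr_apply]
    refine Finset.sum_congr rfl fun q _ => ?_
    rw [CStarMatrix.mul_apply, map_sum]
    exact Finset.sum_congr rfl fun r _ => by rw [CStarMatrix.star_apply]
  have htrX2 : tr τ (α × β) (X * star X) = tr τ (α × β) (star X * X) := by
    rw [htrX, tr_apply, Finset.sum_comm]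
    refine Finset.sum_congr rfl fun q _ => ?_
    rw [CStarMatrix.mul_apply, map_sum]
    refine Finset.sum_congr rfl fun r _ => ?_
    rw [CStarMatrix.star_apply, hτ.comm]
  have htr0 : 0 ≤ tr τ (α × β) (star X * X) := by
    rw [htrX]
    exact Finset.sum_nonneg fun q _ => Finset.sum_nonneg fun r _ => hτ.pos _
  have htr0' : 0 ≤ trX := (Complex.nonneg_iff.mp htr0).1
  have htrc : tr τ (α × β) (star X * X) = (trX : ℂ) := by
    rw [htr]
    exact Complex.ext rfl (by simpa using (Complex.nonneg_iff.mp htr0).2.symm)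
  have hntr : ntr τ β p = ((trX / l : ℝ) : ℂ) := by
    have e1 : tr τ β p = tr τ (α × β) (X * star X) := by
      rw [hp, map_sum, tr_apply, Fintype.sum_prod_type]
      refine Finset.sum_congr rfl fun i _ => ?_
      rw [tr_apply]
      rfl
    rw [ntr, LinearMap.smul_apply, e1, htrX2, htrc, smul_eq_mul]
    push_cast
    rw [hl]
    push_cast
    ring
  -- the bound with an error
  have main : ∀ ε : ℝ, 0 < ε → ‖amp w (α × β) X ξ‖ ^ 2 ≤
      18 * c ^ 4 * γ ^ 2 * ‖ξ‖ ^ 2 * (‖X‖ ^ 2 + 1 / l * trX) + 18 * c ^ 4 * γ ^ 2 * ‖ξ‖ ^ 2 * ε := by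
    intro ε hε
    obtain ⟨N, g, hgc, hg⟩ := hdb p hpsa ε hε
    have hN0 : (0 : ℝ) < (N : ℝ) + 1 := by positivity
    -- norm of the sum of conjugates
    have hsum : ‖∑ k, (g k : CStarMatrix β β A) * p * star (g k : CStarMatrix β β A)‖ ≤
        (N + 1) * (trX / l + ε) := by
      have e1 : ‖((N + 1 : ℂ))⁻¹ • ∑ k, (g k : CStarMatrix β β A) * p *
          star (g k : CStarMatrix β β A)‖ ≤ trX / l + ε := by
        have e2 : ‖algebraMap ℂ (CStarMatrix β β A) (ntr τ β p)‖ ≤ trX / l := by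
          rw [hntr, norm_algebraMap]
          have e3 : ‖((trX / l : ℝ) : ℂ)‖ = trX / l := by
            rw [Complex.norm_real, Real.norm_of_nonneg (by positivity)]
          rw [e3]
          have e4 := norm_one_le (CStarMatrix β β A)
          have e5 : 0 ≤ trX / l := by positivity
          nlinarith
        calc ‖((N + 1 : ℂ))⁻¹ • ∑ k, (g k : CStarMatrix β β A) * p *
            star (g k : CStarMatrix β β A)‖ = ‖(((N + 1 : ℂ))⁻¹ • ∑ k,
              (g k : CStarMatrix β β A) * p * star (g k : CStarMatrix β β A) -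
              algebraMap ℂ (CStarMatrix β β A) (ntr τ β p)) +
              algebraMap ℂ (CStarMatrix β β A) (ntr τ β p)‖ := by
              rw [sub_add_cancel]
          _ ≤ _ + _ := norm_add_le _ _
          _ ≤ ε + trX / l := add_le_add hg e2
          _ = _ := by ring
      rw [norm_smul, norm_inv] at e1
      have e6 : ‖(N + 1 : ℂ)‖ = (N : ℝ) + 1 := by
        have : (N + 1 : ℂ) = (((N : ℝ) + 1 : ℝ) : ℂ) := by push_cast; ring
        rw [this, Complex.norm_real, Real.norm_of_nonneg hN0.le]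
      rw [e6, inv_mul_le_iff₀ hN0] at e1
      exact e1
    -- the family
    set x : α × Fin (N + 1) → CStarMatrix (α × β) (α × β) A :=
      fun q => put a0 q.1 (g q.2 : CStarMatrix β β A) * X with hx
    have e6 : ‖(N + 1 : ℂ)‖ = (N : ℝ) + 1 := by
      have : (N + 1 : ℂ) = (((N : ℝ) + 1 : ℝ) : ℂ) := by push_cast; ring
      rw [this, Complex.norm_real, Real.norm_of_nonneg hN0.le]
    have hcol : ∑ q, star (x q) * x q = (N + 1 : ℂ) • (star X * X) := by
      have e1 : ∀ q, star (x q) * x q = star X * put q.1 q.1 (1 : CStarMatrix β β A) * X := by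
        intro q
        rw [hx]
        simp only [star_mul, put_star]
        have e2 : star X * put q.1 a0 (star (g q.2 : CStarMatrix β β A)) *
            (put a0 q.1 (g q.2 : CStarMatrix β β A) * X) =
            star X * (put q.1 a0 (star (g q.2 : CStarMatrix β β A)) *
              put a0 q.1 (g q.2 : CStarMatrix β β A)) * X := by
          simp only [mul_assoc]
        rw [e2, put_mul_put, Unitary.coe_star_mul_self]
      simp only [e1]
      rw [Fintype.sum_prod_type]
      simp only [Finset.sum_const, Finset.card_univ, Fintype.card_fin]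
      rw [← Finset.smul_sum, ← Finset.sum_mul, ← Finset.mul_sum, sum_put_one, mul_one]
      rw [← Nat.cast_smul_eq_nsmul ℂ]
      push_cast
      rfl
    have hcoln : ‖∑ q, star (x q) * x q‖ = ((N : ℝ) + 1) * ‖X‖ ^ 2 := by
      rw [hcol, norm_smul, e6, CStarRing.norm_star_mul_self, sq]
    have hroww : ∑ q, x q * star (x q) = put a0 a0 (∑ k, (g k : CStarMatrix β β A) * p *
        star (g k : CStarMatrix β β A)) := by
      have e1 : ∀ q, x q * star (x q) = put a0 a0 ((g q.2 : CStarMatrix β β A) *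
          blk (X * star X) q.1 q.1 * star (g q.2 : CStarMatrix β β A)) := by
        intro q
        rw [hx]
        simp only [star_mul, put_star]
        rw [← put_mul_mul_put]
        simp only [mul_assoc]
      simp only [e1]
      have e2 : ∀ f : α × Fin (N + 1) → CStarMatrix β β A,
          ∑ q, put a0 a0 (f q) = put a0 a0 (∑ q, f q) := fun f =>
        (map_sum (putHom (A := A) (β := β) a0) f Finset.univ).symm
      rw [e2 (fun q => (g q.2 : CStarMatrix β β A) *
          blk (X * star X) q.1 q.1 * star (g q.2 : CStarMatrix β β A))]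
      congr 1
      rw [Fintype.sum_prod_type, Finset.sum_comm]
      refine Finset.sum_congr rfl fun k _ => ?_
      rw [hp, Finset.mul_sum, Finset.sum_mul]
    have hrown : ‖∑ q, x q * star (x q)‖ ≤ ((N : ℝ) + 1) * (trX / l + ε) := by
      rw [hroww, norm_put]
      exact hsum
    -- little Grothendieck
    have hgt := h1 (CStarMatrix (α × β) (α × β) A) (HH β H) (rowMap w ξ a0) Mc hM0 hrow
      (α × Fin (N + 1)) x
    have hgt2 : ∑ q, ‖rowMap w ξ a0 (x q)‖ ^ 2 ≤ 18 * c ^ 2 * γ ^ 2 * ‖ξ‖ ^ 2 *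
        (((N : ℝ) + 1) * (‖X‖ ^ 2 + (trX / l + ε))) := by
      refine hgt.trans ?_
      rw [hM2, hcoln]
      have h0 : 0 ≤ 3 * (6 * c ^ 2 * γ ^ 2 * ‖ξ‖ ^ 2) := by positivity
      calc 3 * (6 * c ^ 2 * γ ^ 2 * ‖ξ‖ ^ 2) * (((N : ℝ) + 1) * ‖X‖ ^ 2 + ‖∑ q, x q * star (x q)‖)
          ≤ 3 * (6 * c ^ 2 * γ ^ 2 * ‖ξ‖ ^ 2) * (((N : ℝ) + 1) * ‖X‖ ^ 2 +
            ((N : ℝ) + 1) * (trX / l + ε)) :=
            mul_le_mul_of_nonneg_left (by linarith) h0
        _ = _ := by ring
    -- invertibility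
    have hinv : ∀ q : α × Fin (N + 1), ‖sec q.1 (amp w (α × β) X ξ)‖ ^ 2 ≤
        c ^ 2 * ‖rowMap w ξ a0 (x q)‖ ^ 2 := by
      intro q
      have e1 : rowMap w ξ a0 (x q) =
          amp w β (g q.2 : CStarMatrix β β A) (sec q.1 (amp w (α × β) X ξ)) := by
        rw [rowMap_apply, sec_amp, map_sum]
        refine Finset.sum_congr rfl fun j _ => ?_
        rw [hx]
        simp only
        rw [blk_put_mul, hwb.mul]
        rfl
      have e2 : sec q.1 (amp w (α × β) X ξ) =
          amp w β (star (g q.2 : CStarMatrix β β A)) (rowMap w ξ a0 (x q)) := by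
        rw [e1]
        have e3 : (amp w β (star (g q.2 : CStarMatrix β β A)) *
            amp w β (g q.2 : CStarMatrix β β A)) (sec q.1 (amp w (α × β) X ξ)) =
            sec q.1 (amp w (α × β) X ξ) := by
          rw [← hwb.mul, Unitary.coe_star_mul_self, hwb.one]
          rfl
        exact e3.symm
      have e4 : ‖sec q.1 (amp w (α × β) X ξ)‖ ≤ c * ‖rowMap w ξ a0 (x q)‖ := by
        rw [e2]
        refine (ContinuousLinearMap.le_opNorm _ _).trans ?_
        exact mul_le_mul_of_nonneg_right (hgc q.2).2 (norm_nonneg _)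
      rw [← mul_pow]
      exact pow_le_pow_left₀ (norm_nonneg _) e4 2
    have htot := Finset.sum_le_sum (s := Finset.univ) fun q _ => hinv q
    rw [← Finset.mul_sum] at htot
    have c1 : ∑ q : α × Fin (N + 1), ‖sec q.1 (amp w (α × β) X ξ)‖ ^ 2 =
        ((N : ℝ) + 1) * ‖amp w (α × β) X ξ‖ ^ 2 := by
      rw [Fintype.sum_prod_type]
      simp only [Finset.sum_const, Finset.card_univ, Fintype.card_fin, nsmul_eq_mul]
      rw [← Finset.mul_sum, sum_sec]
      push_cast
      ring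
    rw [c1] at htot
    have hfin : ((N : ℝ) + 1) * ‖amp w (α × β) X ξ‖ ^ 2 ≤ ((N : ℝ) + 1) *
        (18 * c ^ 4 * γ ^ 2 * ‖ξ‖ ^ 2 * (‖X‖ ^ 2 + 1 / l * trX) + 18 * c ^ 4 * γ ^ 2 * ‖ξ‖ ^ 2 * ε) := by
      calc ((N : ℝ) + 1) * ‖amp w (α × β) X ξ‖ ^ 2
          ≤ c ^ 2 * (18 * c ^ 2 * γ ^ 2 * ‖ξ‖ ^ 2 *
            (((N : ℝ) + 1) * (‖X‖ ^ 2 + (trX / l + ε)))) :=
            htot.trans (mul_le_mul_of_nonneg_left hgt2 (by positivity))
        _ = _ := by ring
    exact le_of_mul_le_mul_left hfin hN0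
  -- let the error tend to zero
  refine le_of_forall_pos_le_add fun δ hδ => ?_
  have hcc : 0 < 18 * c ^ 4 * γ ^ 2 * ‖ξ‖ ^ 2 + 1 := by positivity
  have := main (δ / (18 * c ^ 4 * γ ^ 2 * ‖ξ‖ ^ 2 + 1)) (by positivity)
  refine this.trans (add_le_add le_rfl ?_)
  rw [mul_div_assoc', div_le_iff₀ hcc]
  nlinarith [hδ]

end H759R2.Kad
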