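import Pool.Agent.H759R2.Kad.Props3
import Pool.Agent.H862R2.Kad.Embed

/-!
Task 16: the block bound for `m × m` matrices, `m ≤ q l`, with a general constant.
-/

open scoped ComplexOrder InnerProductSpace ComplexConjugate
open Finset

noncomputable section

namespace H759R2.Kad

universe u v

open Embed in
theorem prove3_embed (h : K_block.{u, v}) : K_embed.{u, v} := by
  intro A _ _ _ H _ _ _ w τ hw hτ hdix c hc0 hwc m l q hl hq hm γ hγ hY X ξ
  have : Nonempty (Fin m ↪ Fin q × Fin l) := by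
    refine Function.Embedding.nonempty_of_card_le ?_
    simpa using hm
  obtain ⟨e⟩ := this
  have : Nonempty (Fin q) := ⟨⟨0, hq⟩⟩
  have : Nonempty (Fin l) := ⟨⟨0, hl⟩⟩
  have key := h A H w τ hw hτ hdix c hc0 hwc (Fin q) (Fin l) γ hγ hY (exH e X) (exv e ξ)
  rw [amp_ex, exv_norm, exv_norm, ← map_star, ← map_mul, tr_ex, Fintype.card_fin] at key
  refine key.trans ?_
  have hn : ‖exH e X‖ ≤ ‖X‖ := NonUnitalStarAlgHom.norm_apply_le (exH e) X
  have hn2 : ‖exH e X‖ ^ 2 ≤ ‖X‖ ^ 2 := pow_le_pow_left₀ (norm_nonneg _) hn 2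
  gcongr

end H759R2.Kad
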